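import Mathlib

/-!
# Straight-line drawings with integer coordinates, checked by evaluation
-/

set_option autoImplicit false

namespace Pool.Agent.R32

/-- `p` is a straight-line crossing-free drawing of `G`: the vertices go to pairwise distinct
points, the closed segment of an edge contains no vertex other than the ends of the edge, and the
segments of two different edges meet at most in (the image of) a common end. -/
def IsDrawing {V : Type*} (G : SimpleGraph V) (p : V → ℝ × ℝ) : Prop :=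
  Function.Injective p ∧
  (∀ u v w : V, G.Adj u v → p w ∈ segment ℝ (p u) (p v) → w = u ∨ w = v) ∧
  (∀ u v x y : V, G.Adj u v → G.Adj x y → s(u, v) ≠ s(x, y) →
    ∀ q, q ∈ segment ℝ (p u) (p v) → q ∈ segment ℝ (p x) (p y) →
      ∃ w, (w = u ∨ w = v) ∧ (w = x ∨ w = y) ∧ q = p w)

/-- `G` is planar: it has a straight-line crossing-free drawing in the plane. -/
def IsPlanar {V : Type*} (G : SimpleGraph V) : Prop := ∃ p : V → ℝ × ℝ, IsDrawing G p

/-- orientation of three integer points -/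
def ori (a b c : ℤ × ℤ) : ℤ := (b.1 - a.1) * (c.2 - a.2) - (b.2 - a.2) * (c.1 - a.1)

/-- real point of an integer point -/
def toR (a : ℤ × ℤ) : ℝ × ℝ := ((a.1 : ℝ), (a.2 : ℝ))

/-- the affine function vanishing on the line through `a`, `b` -/
def oriR (a b : ℤ × ℤ) (z : ℝ × ℝ) : ℝ :=
  ((b.1 : ℝ) - a.1) * (z.2 - a.2) - ((b.2 : ℝ) - a.2) * (z.1 - a.1)

theorem oriR_toR (a b c : ℤ × ℤ) : oriR a b (toR c) = (ori a b c : ℝ) := by
  simp only [oriR, toR, ori]
  push_cast
  ring

theorem oriR_comb (a b : ℤ × ℤ) (x y : ℝ × ℝ) (s t : ℝ) (h : s + t = 1) :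
    oriR a b (s • x + t • y) = s * oriR a b x + t * oriR a b y := by
  have : s = 1 - t := by linarith
  subst this
  simp only [oriR, Prod.fst_add, Prod.snd_add, Prod.smul_fst, Prod.smul_snd, smul_eq_mul]
  ring

theorem ori_self_left (a b : ℤ × ℤ) : ori a b a = 0 := by simp [ori]

theorem ori_self_right (a b : ℤ × ℤ) : ori a b b = 0 := by simp [ori]; ring

theorem oriR_seg {a b : ℤ × ℤ} {z : ℝ × ℝ} (h : z ∈ segment ℝ (toR a) (toR b)) :
    oriR a b z = 0 := by
  obtain ⟨s, t, hs, ht, hst, rfl⟩ := h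
  rw [oriR_comb _ _ _ _ _ _ hst, oriR_toR, oriR_toR, ori_self_left, ori_self_right]
  simp

theorem toR_inj {a b : ℤ × ℤ} (h : toR a = toR b) : a = b := by
  simp only [toR, Prod.mk.injEq, Int.cast_inj] at h
  exact Prod.ext h.1 h.2

theorem sep {a b c d : ℤ × ℤ} (h : 0 < ori a b c * ori a b d) {z : ℝ × ℝ}
    (h1 : z ∈ segment ℝ (toR a) (toR b)) (h2 : z ∈ segment ℝ (toR c) (toR d)) : False := by
  have h0 := oriR_seg h1
  obtain ⟨s, t, hs, ht, hst, rfl⟩ := h2
  rw [oriR_comb _ _ _ _ _ _ hst, oriR_toR, oriR_toR] at h0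
  have h' : (0 : ℝ) < (ori a b c : ℝ) * (ori a b d : ℝ) := by exact_mod_cast h
  rcases pos_and_pos_or_neg_and_neg_of_mul_pos h' with ⟨hc, hd⟩ | ⟨hc, hd⟩
  · rcases eq_or_lt_of_le hs with h3 | h3
    · have : t = 1 := by linarith
      subst this; rw [← h3] at h0; simp at h0; rw [h0] at hd; simp at hd
    · nlinarith [mul_pos h3 hc, mul_nonneg ht hd.le]
  · rcases eq_or_lt_of_le hs with h3 | h3
    · have : t = 1 := by linarith
      subst this; rw [← h3] at h0; simp at h0; rw [h0] at hd; simp at hd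
    · nlinarith [mul_pos h3 (neg_pos.2 hc), mul_nonneg ht (neg_pos.2 hd).le]

theorem share {a b d : ℤ × ℤ} (h : ori a b d ≠ 0) {z : ℝ × ℝ}
    (h1 : z ∈ segment ℝ (toR a) (toR b)) (h2 : z ∈ segment ℝ (toR a) (toR d)) : z = toR a := by
  have h0 := oriR_seg h1
  obtain ⟨s, t, hs, ht, hst, rfl⟩ := h2
  rw [oriR_comb _ _ _ _ _ _ hst, oriR_toR, oriR_toR, ori_self_left] at h0
  have h' : (ori a b d : ℝ) ≠ 0 := by exact_mod_cast h
  have ht0 : t = 0 := by
    simp at h0
    rcases h0 with h0 | h0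
    · exact h0
    · exact absurd h0 (by exact_mod_cast h)
  subst ht0
  have : s = 1 := by linarith
  subst this
  simp

/-- check for a pair of edges of a drawing with integer coordinates -/
def pairOK {n : ℕ} (c : Fin n → ℤ × ℤ) (e f : Fin n × Fin n) : Bool :=
  if (e.1 = f.1 ∧ e.2 = f.2) ∨ (e.1 = f.2 ∧ e.2 = f.1) then true
  else if e.1 = f.1 then decide (ori (c e.1) (c e.2) (c f.2) ≠ 0)
  else if e.1 = f.2 then decide (ori (c e.1) (c e.2) (c f.1) ≠ 0)
  else if e.2 = f.1 then decide (ori (c e.2) (c e.1) (c f.2) ≠ 0)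
  else if e.2 = f.2 then decide (ori (c e.2) (c e.1) (c f.1) ≠ 0)
  else decide (0 < ori (c e.1) (c e.2) (c f.1) * ori (c e.1) (c e.2) (c f.2)) ||
    decide (0 < ori (c f.1) (c f.2) (c e.1) * ori (c f.1) (c f.2) (c e.2))

/-- check for an edge and a vertex -/
def vertOK {n : ℕ} (c : Fin n → ℤ × ℤ) (e : Fin n × Fin n) (w : Fin n) : Bool :=
  decide (w = e.1) || decide (w = e.2) || decide (ori (c e.1) (c e.2) (c w) ≠ 0)

theorem pairOK_spec {n : ℕ} {c : Fin n → ℤ × ℤ} {e f : Fin n × Fin n} (h : pairOK c e f = true)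
    (hne : s(e.1, e.2) ≠ s(f.1, f.2)) {q : ℝ × ℝ}
    (h1 : q ∈ segment ℝ (toR (c e.1)) (toR (c e.2)))
    (h2 : q ∈ segment ℝ (toR (c f.1)) (toR (c f.2))) :
    ∃ w, (w = e.1 ∨ w = e.2) ∧ (w = f.1 ∨ w = f.2) ∧ q = toR (c w) := by
  obtain ⟨a, b⟩ := e
  obtain ⟨x, y⟩ := f
  simp only at *
  unfold pairOK at h
  simp only at h
  split_ifs at h with h3 h4 h5 h6 h7
  · exfalso
    apply hne
    rw [Sym2.eq_iff]
    exact h3
  · subst h4
    exact ⟨a, Or.inl rfl, Or.inl rfl, share (of_decide_eq_true h) h1 h2⟩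
  · subst h5
    rw [segment_symm] at h2
    exact ⟨a, Or.inl rfl, Or.inr rfl, share (of_decide_eq_true h) h1 h2⟩
  · subst h6
    rw [segment_symm] at h1
    exact ⟨b, Or.inr rfl, Or.inl rfl, share (of_decide_eq_true h) h1 h2⟩
  · subst h7
    rw [segment_symm] at h1 h2
    exact ⟨b, Or.inr rfl, Or.inr rfl, share (of_decide_eq_true h) h1 h2⟩
  · exfalso
    rw [Bool.or_eq_true] at h
    rcases h with h | h
    · exact sep (of_decide_eq_true h) h1 h2
    · exact sep (of_decide_eq_true h) h2 h1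

/-- A drawing with integer coordinates is verified by evaluating the checks. -/
theorem isDrawing_of_check {n : ℕ} (G : SimpleGraph (Fin n)) (E : List (Fin n × Fin n))
    (c : Fin n → ℤ × ℤ) (hG : ∀ u v, G.Adj u v → (u, v) ∈ E ∨ (v, u) ∈ E)
    (hinj : ∀ u v, c u = c v → u = v)
    (hv : ∀ e ∈ E, ∀ w, vertOK c e w = true)
    (hp : ∀ e ∈ E, ∀ f ∈ E, pairOK c e f = true) :
    IsDrawing G (fun v => toR (c v)) := by
  refine ⟨fun u v h => hinj u v (toR_inj h), ?_, ?_⟩
  · intro u v w huv hw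
    have key : ∀ u v, (u, v) ∈ E → toR (c w) ∈ segment ℝ (toR (c u)) (toR (c v)) →
        w = u ∨ w = v := by
      intro u v he hw
      have h := hv _ he w
      unfold vertOK at h
      simp only [Bool.or_eq_true, decide_eq_true_eq] at h
      rcases h with (h | h) | h
      · exact Or.inl h
      · exact Or.inr h
      · exfalso
        have h0 := oriR_seg hw
        rw [oriR_toR] at h0
        exact h (by exact_mod_cast h0)
    rcases hG u v huv with h | h
    · exact key u v h hw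
    · rw [segment_symm] at hw
      exact (key v u h hw).symm
  · intro u v x y huv hxy hne q h1 h2
    have key : ∀ u v x y, (u, v) ∈ E → (x, y) ∈ E → s(u, v) ≠ s(x, y) →
        q ∈ segment ℝ (toR (c u)) (toR (c v)) → q ∈ segment ℝ (toR (c x)) (toR (c y)) →
        ∃ w, (w = u ∨ w = v) ∧ (w = x ∨ w = y) ∧ q = toR (c w) := by
      intro u v x y he hf hne h1 h2
      exact pairOK_spec (hp _ he _ hf) hne h1 h2
    rcases hG u v huv with h | h <;> rcases hG x y hxy with h' | h'
    · exact key u v x y h h' hne h1 h2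
    · rw [segment_symm] at h2
      obtain ⟨w, a1, a2, a3⟩ := key u v y x h h' (by rw [Sym2.eq_swap (a := y)]; exact hne) h1 h2
      exact ⟨w, a1, a2.symm, a3⟩
    · rw [segment_symm] at h1
      obtain ⟨w, a1, a2, a3⟩ := key v u x y h h' (by rw [Sym2.eq_swap (a := v)]; exact hne) h1 h2
      exact ⟨w, a1.symm, a2, a3⟩
    · rw [segment_symm] at h1 h2
      obtain ⟨w, a1, a2, a3⟩ := key v u y x h h' (by
        rw [Sym2.eq_swap (a := v), Sym2.eq_swap (a := y)]; exact hne) h1 h2
      exact ⟨w, a1.symm, a2.symm, a3⟩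

end Pool.Agent.R32
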